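import Pool.Agent.N105.LT.Defs

/-!
# Project LG (helper105), MP_cfe56d_mp: the integral I2 (helper281)
-/

set_option autoImplicit false

open MeasureTheory Set Filter Topology Real

namespace Pool.Agent.N281.LG

open Pool.Agent.N105.LT

theorem cosh_bound (x : ℝ) : (1 + |x|) * (cosh x)⁻¹ ≤ 20 * (1 + x ^ 2)⁻¹ := by
  have hc : 0 < cosh x := cosh_pos x
  have hy : 0 ≤ |x| := abs_nonneg x
  have e0 : (1 : ℝ) ≤ exp |x| := one_le_exp hy
  have e1 : |x| ≤ exp |x| := by
    have := add_one_le_exp |x|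
    linarith
  have e2 : |x| ^ 2 ≤ 2 * exp |x| := by
    have := pow_div_factorial_le_exp |x| hy 2
    simp only [Nat.factorial] at this
    push_cast at this
    linarith
  have e3 : |x| ^ 3 ≤ 6 * exp |x| := by
    have := pow_div_factorial_le_exp |x| hy 3
    simp only [Nat.factorial] at this
    push_cast at this
    linarith
  have e4 : exp |x| ≤ 2 * cosh x := by
    rw [← cosh_abs, cosh_eq]
    have := exp_pos (-|x|)
    linarith
  have e5 : (1 + |x|) * (1 + x ^ 2) ≤ 20 * cosh x := by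
    have : x ^ 2 = |x| ^ 2 := (sq_abs x).symm
    rw [this]
    nlinarith
  have h1 : 0 < 1 + x ^ 2 := by positivity
  rw [← div_eq_mul_inv, ← div_eq_mul_inv, div_le_div_iff₀ hc h1]
  exact e5

theorem int_bound : Integrable (fun x : ℝ => (1 + |x|) * (cosh x)⁻¹) := by
  refine (integrable_inv_one_add_sq.const_mul 20).mono' ?_ (Eventually.of_forall fun x => ?_)
  · exact (((continuous_const.add continuous_abs).mul
      (continuous_cosh.inv₀ fun x => (cosh_pos x).ne')).aestronglyMeasurable)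
  · rw [Real.norm_eq_abs, abs_of_nonneg (mul_nonneg (by positivity)
      (inv_nonneg.mpr (cosh_pos x).le))]
    exact cosh_bound x

/-- the weight -/
noncomputable def w (a x : ℝ) : ℝ := sinh a * ((cosh x)⁻¹ * (cosh (x - a))⁻¹)

theorem w_cont (a : ℝ) : Continuous (w a) := by
  unfold w
  refine continuous_const.mul ((continuous_cosh.inv₀ fun x => (cosh_pos x).ne').mul ?_)
  exact (continuous_cosh.comp (continuous_id.sub continuous_const)).inv₀
    fun x => (cosh_pos _).ne'

theorem w_abs (a x : ℝ) : |w a x| ≤ |sinh a| * (cosh x)⁻¹ := by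
  unfold w
  rw [abs_mul]
  refine mul_le_mul_of_nonneg_left ?_ (abs_nonneg _)
  have h1 : 0 < (cosh x)⁻¹ := inv_pos.mpr (cosh_pos x)
  have h2 : 0 < (cosh (x - a))⁻¹ := inv_pos.mpr (cosh_pos _)
  rw [abs_of_pos (mul_pos h1 h2)]
  have h3 : (cosh (x - a))⁻¹ ≤ 1 := inv_le_one_of_one_le₀ (one_le_cosh _)
  calc (cosh x)⁻¹ * (cosh (x - a))⁻¹ ≤ (cosh x)⁻¹ * 1 := mul_le_mul_of_nonneg_left h3 h1.le
    _ = (cosh x)⁻¹ := mul_one _

theorem w_int (a : ℝ) : Integrable (w a) := by
  refine (int_bound.const_mul |sinh a|).mono' (w_cont a).aestronglyMeasurable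
    (Eventually.of_forall fun x => ?_)
  rw [Real.norm_eq_abs]
  refine (w_abs a x).trans ?_
  refine mul_le_mul_of_nonneg_left ?_ (abs_nonneg _)
  have h1 : 0 < (cosh x)⁻¹ := inv_pos.mpr (cosh_pos x)
  have h2 : (1 : ℝ) ≤ 1 + |x| := by
    have := abs_nonneg x
    linarith
  calc (cosh x)⁻¹ = 1 * (cosh x)⁻¹ := (one_mul _).symm
    _ ≤ (1 + |x|) * (cosh x)⁻¹ := mul_le_mul_of_nonneg_right h2 h1.le

theorem xw_int (a : ℝ) : Integrable (fun x => x * w a x) := by
  refine (int_bound.const_mul |sinh a|).mono' (continuous_id.mul (w_cont a)).aestronglyMeasurable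
    (Eventually.of_forall fun x => ?_)
  rw [Real.norm_eq_abs, abs_mul]
  have h1 : 0 < (cosh x)⁻¹ := inv_pos.mpr (cosh_pos x)
  calc |x| * |w a x| ≤ |x| * (|sinh a| * (cosh x)⁻¹) :=
        mul_le_mul_of_nonneg_left (w_abs a x) (abs_nonneg _)
    _ = |sinh a| * (|x| * (cosh x)⁻¹) := by ring
    _ ≤ |sinh a| * ((1 + |x|) * (cosh x)⁻¹) := by
        refine mul_le_mul_of_nonneg_left (mul_le_mul_of_nonneg_right ?_ h1.le) (abs_nonneg _)
        linarith

/-- the antiderivative -/
noncomputable def U (a x : ℝ) : ℝ := log (cosh x) - log (cosh (x - a))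

theorem U_deriv (a x : ℝ) : HasDerivAt (U a) (w a x) x := by
  have hc : cosh x ≠ 0 := (cosh_pos x).ne'
  have hc' : cosh (x - a) ≠ 0 := (cosh_pos _).ne'
  have h1 : HasDerivAt (fun x => log (cosh x)) (sinh x / cosh x) x := (hasDerivAt_cosh x).log hc
  have h2 : HasDerivAt (fun x => cosh (x - a)) (sinh (x - a)) x := by
    have h := ((hasDerivAt_id x).sub_const a).cosh
    rw [mul_one] at h
    exact h
  have h3 : HasDerivAt (fun x => log (cosh (x - a))) (sinh (x - a) / cosh (x - a)) x := h2.log hc'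
  have h4 := h1.sub h3
  have e : sinh x / cosh x - sinh (x - a) / cosh (x - a) = w a x := by
    unfold w
    have e1 : sinh a = sinh x * cosh (x - a) - cosh x * sinh (x - a) := by
      rw [← sinh_sub]
      congr 1
      ring
    rw [e1]
    field_simp
  rw [← e]
  exact h4

theorem U_top (a : ℝ) : Tendsto (U a) atTop (𝓝 a) := by
  have h0 : Tendsto (fun x : ℝ => exp (-(2 * x))) atTop (𝓝 0) :=
    tendsto_exp_neg_atTop_nhds_zero.comp (tendsto_id.const_mul_atTop two_pos)
  have h1 : Tendsto (fun x : ℝ => (1 + exp (-(2 * x))) / (exp (-a) + exp a * exp (-(2 * x))))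
      atTop (𝓝 ((1 + 0) / (exp (-a) + exp a * 0))) := by
    refine (tendsto_const_nhds.add h0).div (tendsto_const_nhds.add (h0.const_mul _)) ?_
    rw [mul_zero, add_zero]
    exact (exp_pos _).ne'
  have h2 : (1 + 0) / (exp (-a) + exp a * 0) = exp a := by
    rw [mul_zero, add_zero, add_zero, exp_neg, one_div, inv_inv]
  rw [h2] at h1
  have h3 := h1.log (exp_pos a).ne'
  rw [log_exp] at h3
  refine h3.congr fun x => ?_
  unfold U
  rw [← log_div (cosh_pos x).ne' (cosh_pos _).ne']
  congr 1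
  rw [div_eq_div_iff (by positivity) (cosh_pos _).ne', cosh_eq, cosh_eq]
  have e1 : exp (-(2 * x)) = exp (-x) * exp (-x) := by
    rw [← exp_add]
    congr 1
    ring
  have e2 : exp (x - a) = exp x * exp (-a) := by
    rw [← exp_add]
    congr 1
  have e3 : exp (-(x - a)) = exp (-x) * exp a := by
    rw [← exp_add]
    congr 1
    ring
  have e4 : exp x * exp (-x) = 1 := by
    rw [← exp_add, add_neg_cancel, exp_zero]
  have e5 : exp a * exp (-a) = 1 := by
    rw [← exp_add, add_neg_cancel, exp_zero]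
  rw [e1, e2, e3]
  linear_combination (exp (-x) * (exp (-a) - exp a) / 2) * e4

theorem U_bot (a : ℝ) : Tendsto (U a) atBot (𝓝 (-a)) := by
  have h1 : Tendsto (fun x : ℝ => a - x) atBot atTop :=
    tendsto_const_nhds.add_atTop tendsto_neg_atBot_atTop |>.congr fun x => by ring
  have h2 := ((U_top a).comp h1).neg
  refine h2.congr fun x => ?_
  simp only [Function.comp_apply, U]
  have e1 : a - x - a = -x := by ring
  have e2 : a - x = -(x - a) := by ring
  rw [e1, e2, cosh_neg, cosh_neg]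
  ring

theorem w_integral (a : ℝ) : ∫ x, w a x = 2 * a := by
  rw [integral_of_hasDerivAt_of_tendsto (fun x => U_deriv a x) (w_int a) (U_bot a) (U_top a)]
  ring

theorem w_symm (a x : ℝ) : w a (a - x) = w a x := by
  unfold w
  have e1 : a - x - a = -x := by ring
  have e2 : a - x = -(x - a) := by ring
  rw [e1, e2, cosh_neg, cosh_neg]
  ring

theorem xw_integral (a : ℝ) : ∫ x, x * w a x = a ^ 2 := by
  have h1 : ∫ x, x * w a x = ∫ x, (a - x) * w a (a - x) :=
    (integral_sub_left_eq_self (fun x => x * w a x) volume a).symm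
  have h2 : ∫ x, (a - x) * w a (a - x) = a * (2 * a) - ∫ x, x * w a x := by
    rw [← w_integral a, ← integral_const_mul, ← integral_sub ((w_int a).const_mul a) (xw_int a)]
    refine integral_congr_ae (Eventually.of_forall fun x => ?_)
    simp only
    rw [w_symm]
    ring
  rw [h2] at h1
  linarith

theorem kk_id (a x : ℝ) :
    cosh a * ((cosh (x - a))⁻¹ * kk x) = (cosh x)⁻¹ * kk x + x * w a x := by
  have hc : cosh x ≠ 0 := (cosh_pos x).ne'
  have hc' : cosh (x - a) ≠ 0 := (cosh_pos _).ne'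
  unfold kk w
  by_cases hx : x = 0
  · subst hx
    have ha : cosh a ≠ 0 := (cosh_pos a).ne'
    simp only [if_true, cosh_zero, zero_sub, cosh_neg, zero_mul, add_zero, mul_one, inv_one]
    exact mul_inv_cancel₀ ha
  · rw [if_neg hx]
    have hs : sinh x ≠ 0 := by
      intro h
      exact hx (sinh_eq_zero.mp h)
    have e1 : cosh (x - a) = cosh x * cosh a - sinh x * sinh a := cosh_sub x a
    field_simp
    rw [e1]
    ring

/-- LT/I2 -/
theorem i2 (h4 : Integrable (fun x : ℝ => (cosh x)⁻¹ * kk x) ∧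
      ∫ x : ℝ, (cosh x)⁻¹ * kk x = π ^ 2 / 4) (a : ℝ) :
    Integrable (fun x : ℝ => (cosh (x - a))⁻¹ * kk x) ∧
    ∫ x : ℝ, (cosh (x - a))⁻¹ * kk x = (a ^ 2 + π ^ 2 / 4) / cosh a := by
  obtain ⟨hi, hv⟩ := h4
  have ha : cosh a ≠ 0 := (cosh_pos a).ne'
  have e : (fun x : ℝ => (cosh (x - a))⁻¹ * kk x) =
      fun x => (cosh a)⁻¹ * ((cosh x)⁻¹ * kk x + x * w a x) := by
    funext x
    rw [← kk_id, ← mul_assoc, inv_mul_cancel₀ ha, one_mul]
  rw [e]
  refine ⟨(hi.add (xw_int a)).const_mul _, ?_⟩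
  rw [integral_const_mul, integral_add hi (xw_int a), hv, xw_integral, inv_mul_eq_div]
  congr 1
  ring

end Pool.Agent.N281.LG
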